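import Pool.Agent.Helper83.QM.Defs
import Pool.Agent.Helper92.QU.Pt

/-!
# QM, Q4: a point of the conic gives an isotropic vector outside the radical
-/

set_option autoImplicit false

namespace Pool.Agent.Helper16.QM

open Matrix Pool.Agent.Helper49.QU Pool.Agent.Helper83.QM

/-- a nonzero determinant of combinations of rows has a nonzero minor -/
theorem det_rows {L : Type*} [CommRing L] {N : ℕ} (A : Matrix (Fin N) (Fin 3) L)
    (V : Fin 3 → Fin N → L) (h : ∀ f : Fin 3 → Fin N, (A.submatrix f id).det = 0) :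
    (Matrix.of fun c d : Fin 3 => ∑ i, V c i * A i d).det = 0 := by
  have h1 : (Matrix.of fun c d : Fin 3 => ∑ i, V c i * A i d) =
      fun c : Fin 3 => ∑ i : Fin N, V c i • A i := by
    funext c d
    rw [Matrix.of_apply, Finset.sum_apply]
    rfl
  rw [h1]
  change (Matrix.detRowAlternating (R := L) (n := Fin 3)).toMultilinearMap
    (fun c : Fin 3 => ∑ i : Fin N, V c i • A i) = 0
  rw [MultilinearMap.map_sum]
  apply Finset.sum_eq_zero
  intro f _
  rw [MultilinearMap.map_smul_univ]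
  have h2 : (Matrix.detRowAlternating (R := L) (n := Fin 3)).toMultilinearMap
      (fun i => A (f i)) = (A.submatrix f id).det := rfl
  rw [h2, h f, smul_zero]

/-- a nonzero Gram determinant of three vectors gives a nonzero minor -/
theorem rk3_of_gram {L : Type} [Field L] {N : ℕ} (B : Matrix (Fin N) (Fin N) L)
    (v : Fin 3 → Fin N → L) (h3 : Pool.Agent.Helper49.QU.D3 B v ≠ 0) : Rk3 B := by
  by_contra hcon
  unfold Rk3 at hcon
  push Not at hcon
  apply h3
  have h4 : (Matrix.of fun c d : Fin 3 => bil B (v c) (v d)) =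
      Matrix.of fun c d : Fin 3 => ∑ i, v c i *
        (Matrix.of fun (i : Fin N) (d : Fin 3) => ∑ j, B i j * v d j) i d := by
    ext c d
    simp only [Matrix.of_apply]
    unfold bil
    apply Finset.sum_congr rfl
    intro i _
    rw [Finset.mul_sum]
    apply Finset.sum_congr rfl
    intro j _
    ring
  unfold Pool.Agent.Helper49.QU.D3
  rw [h4]
  apply det_rows
  intro f
  rw [← Matrix.det_transpose]
  have h5 : ((Matrix.of fun (i : Fin N) (d : Fin 3) => ∑ j, B i j * v d j).submatrix f id)ᵀ =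
      Matrix.of fun c d : Fin 3 => ∑ j, v c j *
        (Matrix.of fun (j : Fin N) (d : Fin 3) => B (f d) j) j d := by
    ext c d
    simp only [Matrix.transpose_apply, Matrix.submatrix_apply, Matrix.of_apply, id]
    apply Finset.sum_congr rfl
    intro j _
    ring
  rw [h5]
  apply det_rows
  intro g
  rw [← Matrix.det_transpose]
  exact hcon f g

/-- **Q4.** -/
theorem iso_of_conic {L : Type} [Field L] {N : ℕ} (B : Matrix (Fin N) (Fin N) L) (hB : B.IsSymm)
    (v : Fin 3 → Fin N → L) (h1 : D1 B v ≠ 0) (h2 : D2 B v ≠ 0) (h3 : D3 B v ≠ 0) (x y : L)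
    (hxy : x ^ 2 = qa B v * y ^ 2 + qb B v) : Iso B ∧ Rk3 B := by
  refine ⟨⟨upt B v x y, ?_, ?_⟩, rk3_of_gram B v h3⟩
  · rw [Pool.Agent.Helper92.QU.bil_upt B hB v x y]
    linear_combination D1 B v * hxy
  · let m := Pool.Agent.Helper92.QU.lm B
    have hm : ∀ a b, m a b = m b a := Pool.Agent.Helper92.QU.lm_symm B hB
    refine ⟨Pool.Agent.Helper92.QU.C31 m (v 0) (v 1) (v 2) • v 0 +
      Pool.Agent.Helper92.QU.C32 m (v 0) (v 1) (v 2) • v 1 +
      Pool.Agent.Helper92.QU.D2 m (v 0) (v 1) • v 2, ?_⟩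
    rw [Pool.Agent.Helper92.QU.upt_eq, ← Pool.Agent.Helper92.QU.lm_apply]
    have key : m (Pool.Agent.Helper92.QU.vec m (v 0) (v 1) (v 2) x y)
        (Pool.Agent.Helper92.QU.C31 m (v 0) (v 1) (v 2) • v 0 +
        Pool.Agent.Helper92.QU.C32 m (v 0) (v 1) (v 2) • v 1 +
        Pool.Agent.Helper92.QU.D2 m (v 0) (v 1) • v 2) =
        Pool.Agent.Helper92.QU.D1 m (v 0) * (Pool.Agent.Helper92.QU.D2 m (v 0) (v 1) *
          Pool.Agent.Helper92.QU.D3 m (v 0) (v 1) (v 2)) := by
      simp only [Pool.Agent.Helper92.QU.vec, Pool.Agent.Helper92.QU.D1,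
        Pool.Agent.Helper92.QU.D2, Pool.Agent.Helper92.QU.D3, Pool.Agent.Helper92.QU.C31,
        Pool.Agent.Helper92.QU.C32, map_add, map_sub, map_smul, LinearMap.add_apply,
        LinearMap.sub_apply, LinearMap.smul_apply, smul_eq_mul]
      rw [hm (v 1) (v 0), hm (v 2) (v 0), hm (v 2) (v 1)]
      ring
    change m _ _ ≠ 0
    rw [key]
    rw [Pool.Agent.Helper92.QU.D1_eq] at h1
    rw [Pool.Agent.Helper92.QU.D2_eq] at h2
    rw [Pool.Agent.Helper92.QU.D3_eq B hB] at h3
    exact mul_ne_zero h1 (mul_ne_zero h2 h3)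

end Pool.Agent.Helper16.QM
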